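import Mathlib

/-!
# A game characterisation of strong gamma-sets

For every topological space `X`, the selection principle `S₁(⟨𝒪_n⟩_n, Γ)` holds if and only if
ONE has no winning strategy in the game `G₁(⟨𝒪_n⟩_n, Γ)` played on `X`.
-/

open Set Filter

namespace Pool.Agent.Results.MP_b9e574_gt.StrongGammaGame

/-- `IsNCover X n 𝒰` says that `𝒰` is an open `n`-cover of `X` (that is, `𝒰 ∈ 𝒪_n`): the members of
`𝒰` are open and cover `X`, `X` itself is not a member, and every `n`-element subset of `X`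
lies in some member of `𝒰`. -/
def IsNCover (X : Type*) [TopologicalSpace X] (n : ℕ) (𝒰 : Set (Set X)) : Prop :=
  (∀ U ∈ 𝒰, IsOpen U) ∧ ⋃₀ 𝒰 = univ ∧ univ ∉ 𝒰 ∧
    ∀ F : Finset X, F.card = n → ∃ U ∈ 𝒰, (F : Set X) ⊆ U

/-- The sequence `⟨U_n⟩` of open sets is a `γ`-cover (`⟨U_n⟩ ∈ Γ`): every point of `X` belongs to
`U_n` for all but finitely many `n`. -/
def IsGammaCover {X : Type*} [TopologicalSpace X] (U : ℕ → Set X) : Prop :=
  (∀ n, IsOpen (U n)) ∧ ∀ x : X, ∀ᶠ n in atTop, x ∈ U n

/-- The selection principle `S₁(⟨𝒪_n⟩_n, Γ)`. Sequences are indexed by `n = 0, 1, 2, …`, the entry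
of index `n` being an `(n+1)`-cover. -/
def StrongGammaSelection (X : Type*) [TopologicalSpace X] : Prop :=
  ∀ 𝒰 : ℕ → Set (Set X), (∀ n, IsNCover X (n + 1) (𝒰 n)) →
    ∃ U : ℕ → Set X, (∀ n, U n ∈ 𝒰 n) ∧ IsGammaCover U

/-- The list `[U 0, U 1, …, U (n-1)]` of the first `n` moves of TWO in the play `U`. -/
def history {X : Type*} (U : ℕ → Set X) (n : ℕ) : List (Set X) := (List.range n).map U

/-- `Φ` is a strategy for ONE in the game `G₁(⟨𝒪_n⟩_n, Γ)`: to each list of `n` previous moves of TWO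
that is legal against `Φ` (each move of TWO is a member of the cover played by ONE just before)
it assigns an `(n+1)`-cover of `X`, the move of ONE in the next inning. -/
def IsStrategyForOne (X : Type*) [TopologicalSpace X] (Φ : List (Set X) → Set (Set X)) : Prop :=
  ∀ (n : ℕ) (U : ℕ → Set X), (∀ m < n, U m ∈ Φ (history U m)) → IsNCover X (n + 1) (Φ (history U n))

/-- ONE has a winning strategy in `G₁(⟨𝒪_n⟩_n, Γ)`: a strategy such that no play of TWO that is legal
against it is a `γ`-cover. -/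
def OneHasWinningStrategy (X : Type*) [TopologicalSpace X] : Prop :=
  ∃ Φ : List (Set X) → Set (Set X), IsStrategyForOne X Φ ∧
    ∀ U : ℕ → Set X, (∀ n, U n ∈ Φ (history U n)) → ¬ IsGammaCover U

/-! ### Auxiliary notions -/

section Aux

variable {X : Type*} [TopologicalSpace X]

/-- Auxiliary: open families covering all finite sets with at most `n` points; `X` may be a member. -/
def Wide (n : ℕ) (𝒰 : Set (Set X)) : Prop :=
  (∀ U ∈ 𝒰, IsOpen U) ∧ ∀ F : Finset X, F.card ≤ n → ∃ U ∈ 𝒰, (F : Set X) ⊆ U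

/-- Auxiliary: the selection principle for `Wide` families. -/
def WideSelection (X : Type*) [TopologicalSpace X] : Prop :=
  ∀ 𝒰 : ℕ → Set (Set X), (∀ n, Wide (n + 1) (𝒰 n)) →
    ∃ U : ℕ → Set X, (∀ n, U n ∈ 𝒰 n) ∧ ∀ x : X, ∀ᶠ n in atTop, x ∈ U n

theorem Wide.mono {m n : ℕ} (h : m ≤ n) {𝒰 : Set (Set X)} (h𝒰 : Wide n 𝒰) : Wide m 𝒰 :=
  ⟨h𝒰.1, fun F hF => h𝒰.2 F (hF.trans h)⟩

theorem Wide.isNCover {n : ℕ} {𝒰 : Set (Set X)} (h𝒰 : Wide (n + 1) 𝒰) (hX : univ ∉ 𝒰) :
    IsNCover X (n + 1) 𝒰 := by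
  refine ⟨h𝒰.1, ?_, hX, fun F hF => h𝒰.2 F hF.le⟩
  refine eq_univ_of_forall fun x => ?_
  obtain ⟨U, hU, hx⟩ := h𝒰.2 {x} (by simp)
  exact ⟨U, hU, hx (by simp)⟩

theorem IsNCover.wide [Infinite X] {n : ℕ} {𝒰 : Set (Set X)} (h : IsNCover X n 𝒰) : Wide n 𝒰 := by
  refine ⟨h.1, fun F hF => ?_⟩
  obtain ⟨F', hFF', hF'⟩ := Infinite.exists_superset_card_eq F n hF
  obtain ⟨U, hU, hF'U⟩ := h.2.2.2 F' hF'
  exact ⟨U, hU, fun x hx => hF'U (hFF' hx)⟩

theorem wideSelection_of_strongGammaSelection (hS : StrongGammaSelection X) : WideSelection X := by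
  classical
  intro 𝒰 h𝒰
  have hne : ∀ n, ∃ U, U ∈ 𝒰 n := fun n => by
    obtain ⟨U, hU, -⟩ := (h𝒰 n).2 ∅ (by simp)
    exact ⟨U, hU⟩
  by_cases hinf : ∀ n, ∃ m, n ≤ m ∧ univ ∉ 𝒰 m
  · choose m hm using hinf
    -- use the cover of index `n` itself when `univ` is not a member
    let k : ℕ → ℕ := fun n => if univ ∈ 𝒰 n then m n else n
    have hk : ∀ n, n ≤ k n ∧ univ ∉ 𝒰 (k n) := by
      intro n
      by_cases h : univ ∈ 𝒰 n
      · simp only [k, if_pos h]; exact hm n
      · simp only [k, if_neg h]; exact ⟨le_refl _, h⟩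
    obtain ⟨U, hU, hγ⟩ := hS (fun n => 𝒰 (k n)) (fun n =>
      ((h𝒰 (k n)).mono (by have := (hk n).1; omega)).isNCover (hk n).2)
    refine ⟨fun n => if univ ∈ 𝒰 n then univ else U n, fun n => ?_, fun x => ?_⟩
    · by_cases h : univ ∈ 𝒰 n
      · simp only [h, if_true]
      · have := hU n
        simp only [k, h, if_false] at this ⊢
        exact this
    · filter_upwards [hγ.2 x] with n hn
      by_cases h : univ ∈ 𝒰 n
      · simp only [h, if_true, mem_univ]
      · simp only [h, if_false]; exact hn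
  · push Not at hinf
    obtain ⟨n₀, hn₀⟩ := hinf
    choose V hV using hne
    refine ⟨fun n => if univ ∈ 𝒰 n then univ else V n, fun n => ?_, fun x => ?_⟩
    · by_cases h : univ ∈ 𝒰 n
      · simp only [h, if_true]
      · simp only [h, if_false]; exact hV n
    · filter_upwards [eventually_ge_atTop n₀] with n hn
      simp only [hn₀ n hn, if_true, mem_univ]

/-- Every `Wide n` family has a countable `Wide n` subfamily. -/
theorem exists_countable_wide (hS : WideSelection X) {n : ℕ} {𝒰 : Set (Set X)} (h𝒰 : Wide n 𝒰) :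
    ∃ V : ℕ → Set X, (∀ k, V k ∈ 𝒰) ∧ ∀ F : Finset X, F.card ≤ n → ∃ k, (F : Set X) ⊆ V k := by
  classical
  -- choose a member of `𝒰` above each small finite set
  have hc : ∀ F : Finset X, ∃ U ∈ 𝒰, F.card ≤ n → (F : Set X) ⊆ U := by
    intro F
    by_cases hF : F.card ≤ n
    · obtain ⟨U, hU, hFU⟩ := h𝒰.2 F hF
      exact ⟨U, hU, fun _ => hFU⟩
    · obtain ⟨U, hU, -⟩ := h𝒰.2 ∅ (by simp)
      exact ⟨U, hU, fun h => absurd h hF⟩
  choose c hc𝒰 hcF using hc
  let A : Finset X → Set X := fun F =>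
    ⋃ x ∈ F, ⋂ G ∈ F.powerset.filter (fun G => G.card ≤ n ∧ x ∈ G), c G
  have hAopen : ∀ F, IsOpen (A F) := by
    intro F
    refine isOpen_biUnion fun x _ => ?_
    exact isOpen_biInter_finset fun G _ => h𝒰.1 _ (hc𝒰 G)
  have hAF : ∀ F : Finset X, (F : Set X) ⊆ A F := by
    intro F x hx
    simp only [A, mem_iUnion]
    refine ⟨x, hx, ?_⟩
    simp only [mem_iInter, Finset.mem_filter]
    rintro G ⟨-, hG, hxG⟩
    exact hcF G hG hxG
  have hAcov : ∀ F H : Finset X, (H : Set X) ⊆ A F → H.card ≤ n →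
      ∃ G ⊆ F, (H : Set X) ⊆ c G := by
    intro F H hHF hH
    have h1 : ∀ y : X, ∃ x : X, y ∈ H → x ∈ F ∧
        ∀ G ∈ F.powerset.filter (fun G => G.card ≤ n ∧ x ∈ G), y ∈ c G := by
      intro y
      by_cases hy : y ∈ H
      · have := hHF hy
        simp only [A, mem_iUnion, mem_iInter] at this
        obtain ⟨x, hx, hx'⟩ := this
        exact ⟨x, fun _ => ⟨hx, hx'⟩⟩
      · exact ⟨y, fun h => absurd h hy⟩
    choose f hf using h1
    refine ⟨H.image f, ?_, ?_⟩
    · intro x hx
      obtain ⟨y, hy, rfl⟩ := Finset.mem_image.1 hx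
      exact (hf y hy).1
    · intro y hy
      refine (hf y hy).2 _ ?_
      simp only [Finset.mem_filter, Finset.mem_powerset]
      refine ⟨?_, Finset.card_image_le.trans hH, Finset.mem_image_of_mem f hy⟩
      intro x hx
      obtain ⟨z, hz, rfl⟩ := Finset.mem_image.1 hx
      exact (hf z hz).1
  obtain ⟨W, hW, hWγ⟩ := hS (fun _ => range A) (fun m => ⟨by
    rintro _ ⟨F, rfl⟩
    exact hAopen F, fun F _ => ⟨A F, ⟨F, rfl⟩, hAF F⟩⟩)
  choose Fk hFk using hW
  -- the countable family
  let S : Set (Finset X) := ⋃ k : ℕ, ((Fk k).powerset : Set (Finset X))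
  have hScount : S.Countable := countable_iUnion fun k => Finset.countable_toSet _
  have hSne : S.Nonempty := ⟨∅, mem_iUnion.2 ⟨0, by simp⟩⟩
  obtain ⟨e, he⟩ := hScount.exists_eq_range hSne
  refine ⟨fun k => c (e k), fun k => hc𝒰 _, fun F hF => ?_⟩
  have : ∀ᶠ k in atTop, ∀ x ∈ F, x ∈ W k := by
    rw [Filter.eventually_all_finset]
    exact fun x _ => hWγ x
  obtain ⟨k, hk⟩ := this.exists
  obtain ⟨G, hG, hFG⟩ := hAcov (Fk k) F (by rw [hFk k]; exact fun x hx => hk x hx) hF
  have hGS : G ∈ S := mem_iUnion.2 ⟨k, by simpa using hG⟩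
  rw [he] at hGS
  obtain ⟨j, hj⟩ := hGS
  exact ⟨j, by simpa only [hj] using hFG⟩

/-- All entries of the list are at most `c`. -/
def Bdd (c : ℕ) (σ : List ℕ) : Prop := ∀ k ∈ σ, k ≤ c

theorem Bdd.mono {c d : ℕ} (h : c ≤ d) {σ : List ℕ} (hσ : Bdd c σ) : Bdd d σ :=
  fun k hk => (hσ k hk).trans h

theorem exists_bdd (σ : List ℕ) : ∃ c, Bdd c σ := by
  induction σ with
  | nil => exact ⟨0, by intro k hk; simp at hk⟩
  | cons a σ ih =>
    obtain ⟨c, hc⟩ := ih
    refine ⟨max a c, ?_⟩
    intro k hk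
    rcases List.mem_cons.1 hk with rfl | hk
    · exact le_max_left _ _
    · exact (hc k hk).trans (le_max_right _ _)

theorem finite_bdd (N b : ℕ) : {σ : List ℕ | σ.length ≤ N ∧ Bdd b σ}.Finite := by
  induction N with
  | zero =>
    refine (finite_singleton ([] : List ℕ)).subset ?_
    rintro σ ⟨h1, -⟩
    exact List.length_eq_zero_iff.1 (Nat.le_zero.1 h1)
  | succ N ih =>
    refine ((finite_singleton ([] : List ℕ)).union
      (Set.Finite.image2 (fun a σ => a :: σ) (finite_Iic b) ih)).subset ?_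
    rintro σ ⟨h1, h2⟩
    cases σ with
    | nil => exact Or.inl rfl
    | cons a σ =>
      right
      refine ⟨a, h2 a (by simp), σ, ⟨by simpa using h1, fun k hk => h2 k (by simp [hk])⟩, rfl⟩

/-- Lists are read from right to left: `k :: σ` is the position after `σ` in which TWO has chosen `k`.
`Reach T V σ τ` says that `τ` extends `σ` and that every set met strictly after `σ` and up to `τ`
contains `V`. -/
def Reach (T : List ℕ → Set X) (V : Set X) (σ τ : List ℕ) : Prop :=
  σ <:+ τ ∧ ∀ ρ, ρ <:+ τ → σ.length < ρ.length → V ⊆ T ρ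

omit [TopologicalSpace X] in
theorem exists_reach {T : List ℕ → Set X}
    (hT : ∀ σ : List ℕ, ∀ F : Finset X, F.card ≤ σ.length + 1 → ∃ k, (F : Set X) ⊆ T (k :: σ))
    (F : Finset X) (σ : List ℕ) (N : ℕ) (hF : F.card ≤ σ.length + 1) (hN : σ.length ≤ N) :
    ∃ τ, τ.length = N ∧ Reach T (F : Set X) σ τ := by
  induction N, hN using Nat.le_induction with
  | base =>
    refine ⟨σ, rfl, List.suffix_refl σ, fun ρ hρ h => ?_⟩
    have := hρ.length_le
    omega
  | succ N hN ih =>
    obtain ⟨τ, hτN, hστ, hτ⟩ := ih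
    obtain ⟨k, hk⟩ := hT τ F (by omega)
    refine ⟨k :: τ, by simp [hτN], hστ.trans (List.suffix_cons k τ), fun ρ hρ h => ?_⟩
    rcases List.suffix_cons_iff.1 hρ with rfl | hρ
    · exact hk
    · exact hτ ρ hρ h

/-- `Dom T F b N c`: every position `σ` of length at most `N` with entries at most `b` (and long
enough with respect to `F`) can be extended to length `N`, with entries at most `c`, through sets
containing `F`. -/
def Dom (T : List ℕ → Set X) (F : Finset X) (b N c : ℕ) : Prop :=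
  ∀ σ : List ℕ, F.card ≤ σ.length + 1 → σ.length ≤ N → Bdd b σ →
    ∃ τ, τ.length = N ∧ Bdd c τ ∧ Reach T (F : Set X) σ τ

omit [TopologicalSpace X] in
theorem exists_dom {T : List ℕ → Set X}
    (hT : ∀ σ : List ℕ, ∀ F : Finset X, F.card ≤ σ.length + 1 → ∃ k, (F : Set X) ⊆ T (k :: σ))
    (F : Finset X) (b N : ℕ) : ∃ c, Dom T F b N c := by
  classical
  have h1 : ∀ σ : List ℕ, ∃ c, F.card ≤ σ.length + 1 → σ.length ≤ N →
      ∃ τ, τ.length = N ∧ Bdd c τ ∧ Reach T (F : Set X) σ τ := by
    intro σ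
    by_cases h : F.card ≤ σ.length + 1 ∧ σ.length ≤ N
    · obtain ⟨τ, hτ1, hτ2⟩ := exists_reach hT F σ N h.1 h.2
      obtain ⟨c, hc⟩ := exists_bdd τ
      exact ⟨c, fun _ _ => ⟨τ, hτ1, hc, hτ2⟩⟩
    · exact ⟨0, fun h1 h2 => absurd ⟨h1, h2⟩ h⟩
  choose c hc using h1
  obtain ⟨d, hd⟩ := ((finite_bdd N b).image c).bddAbove
  refine ⟨d, fun σ h1 h2 h3 => ?_⟩
  obtain ⟨τ, hτ1, hτ2, hτ3⟩ := hc σ h1 h2
  exact ⟨τ, hτ1, hτ2.mono (hd ⟨σ, ⟨h2, h3⟩, rfl⟩), hτ3⟩

omit [TopologicalSpace X] in
theorem Dom.mono {T : List ℕ → Set X} {F : Finset X} {b b' N c c' : ℕ} (hb : b' ≤ b) (hc : c ≤ c')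
    (h : Dom T F b N c) : Dom T F b' N c' := by
  intro σ h1 h2 h3
  obtain ⟨τ, hτ1, hτ2, hτ3⟩ := h σ h1 h2 (h3.mono hb)
  exact ⟨τ, hτ1, hτ2.mono hc, hτ3⟩

/-- The bounding function. -/
theorem exists_bound (hS : WideSelection X) {T : List ℕ → Set X}
    (hTo : ∀ σ, σ ≠ [] → IsOpen (T σ))
    (hT : ∀ σ : List ℕ, ∀ F : Finset X, F.card ≤ σ.length + 1 → ∃ k, (F : Set X) ⊆ T (k :: σ)) :
    ∃ g : ℕ → ℕ, ∀ F : Finset X, ∀ᶠ N in atTop, Dom T F N N (g N) := by
  classical
  let 𝒜 : ℕ → Set (Set X) := fun N =>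
    {A | IsOpen A ∧ ∃ c, ∀ F : Finset X, (F : Set X) ⊆ A → Dom T F N N c}
  have h𝒜 : ∀ N, Wide (N + 1) (𝒜 N) := by
    intro N
    refine ⟨fun A hA => hA.1, fun H _ => ?_⟩
    choose c hc using fun F : Finset X => exists_dom hT F N N
    let d : ℕ := H.powerset.sup c
    have hd : ∀ F ⊆ H, Dom T F N N d := by
      intro F hF
      exact (hc F).mono le_rfl (Finset.le_sup (f := c) (Finset.mem_powerset.2 hF))
    let P : Set (List ℕ) := {σ : List ℕ | σ.length ≤ N ∧ Bdd d σ}
    have hP : P.Finite := finite_bdd N d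
    let nb : X → Set X := fun y => ⋂ ρ ∈ {ρ | ρ ∈ P ∧ ρ ≠ [] ∧ y ∈ T ρ}, T ρ
    have hnbo : ∀ y, IsOpen (nb y) := by
      intro y
      refine Set.Finite.isOpen_biInter (hP.subset fun ρ hρ => hρ.1) ?_
      intro ρ hρ
      exact hTo ρ hρ.2.1
    have hnb : ∀ y, y ∈ nb y := by
      intro y
      simp only [nb, mem_iInter]
      exact fun ρ hρ => hρ.2.2
    refine ⟨⋃ y ∈ H, nb y, ⟨isOpen_biUnion fun y _ => hnbo y, d, ?_⟩, ?_⟩
    · intro F hF σ h1 h2 h3
      have h4 : ∀ x : X, ∃ y : X, x ∈ F → y ∈ H ∧ x ∈ nb y := by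
        intro x
        by_cases hx : x ∈ F
        · have := hF hx
          simp only [mem_iUnion] at this
          obtain ⟨y, hy, hxy⟩ := this
          exact ⟨y, fun _ => ⟨hy, hxy⟩⟩
        · exact ⟨x, fun h => absurd h hx⟩
      choose f hf using h4
      have hFH : F.image f ⊆ H := by
        intro y hy
        obtain ⟨x, hx, rfl⟩ := Finset.mem_image.1 hy
        exact (hf x hx).1
      obtain ⟨τ, hτ1, hτ2, hτ3, hτ4⟩ := hd (F.image f) hFH σ (Finset.card_image_le.trans h1) h2 h3
      refine ⟨τ, hτ1, hτ2, hτ3, fun ρ hρ hlen => ?_⟩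
      intro x hx
      have hfx : f x ∈ T ρ := hτ4 ρ hρ hlen (by
        simp only [Finset.coe_image]
        exact ⟨x, hx, rfl⟩)
      have hx' := (hf x hx).2
      simp only [nb, mem_iInter] at hx'
      refine hx' ρ ⟨⟨?_, ?_⟩, ?_, hfx⟩
      · exact hτ1 ▸ hρ.length_le
      · exact fun k hk => hτ2 k (hρ.subset hk)
      · rintro rfl
        simp at hlen
    · intro y hy
      simp only [mem_iUnion]
      exact ⟨y, hy, hnb y⟩
  obtain ⟨A, hA, hAγ⟩ := hS 𝒜 h𝒜
  choose g hg using fun N => (hA N).2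
  refine ⟨g, fun F => ?_⟩
  have : ∀ᶠ N in atTop, ∀ x ∈ F, x ∈ A N := by
    rw [Filter.eventually_all_finset]
    exact fun x _ => hAγ x
  filter_upwards [this] with N hN
  exact hg N F fun x hx => hN x hx

/-- The key lemma: TWO can find a branch of the tree giving a `γ`-cover. -/
theorem exists_branch (hS : WideSelection X) {T : List ℕ → Set X}
    (hTo : ∀ σ, σ ≠ [] → IsOpen (T σ))
    (hT : ∀ σ : List ℕ, ∀ F : Finset X, F.card ≤ σ.length + 1 → ∃ k, (F : Set X) ⊆ T (k :: σ)) :
    ∃ p : ℕ → List ℕ, p 0 = [] ∧ (∀ n, ∃ k, p (n + 1) = k :: p n) ∧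
      ∀ x, ∀ᶠ n in atTop, x ∈ T (p (n + 1)) := by
  classical
  obtain ⟨g, hg⟩ := exists_bound hS hTo hT
  -- the covers to which the selection principle is applied
  let 𝒱 : ℕ → Set (Set X) := fun i =>
    {V | IsOpen V ∧ ∃ N, i < N ∧ ∀ σ : List ℕ, σ.length = i → Bdd (g i) σ →
      ∃ τ, τ.length = N ∧ Bdd (g N) τ ∧ Reach T V σ τ}
  have h𝒱 : ∀ i, Wide (i + 1) (𝒱 i) := by
    intro i
    refine ⟨fun V hV => hV.1, fun F hF => ?_⟩
    obtain ⟨N, hN1, hN2, hN3⟩ := ((hg F).and
      ((eventually_ge_atTop (g i)).and (eventually_gt_atTop i))).exists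
    have hD : Dom T F (g i) N (g N) := hN1.mono hN2 le_rfl
    have h1 : ∀ σ : List ℕ, ∃ τ : List ℕ, σ.length = i → Bdd (g i) σ →
        τ.length = N ∧ Bdd (g N) τ ∧ Reach T (F : Set X) σ τ := by
      intro σ
      by_cases h : σ.length = i ∧ Bdd (g i) σ
      · obtain ⟨τ, hτ⟩ := hD σ (by omega) (by omega) h.2
        exact ⟨τ, fun _ _ => hτ⟩
      · exact ⟨[], fun h1 h2 => absurd ⟨h1, h2⟩ h⟩
    choose τ hτ using h1
    let P : Set (List ℕ) := {σ : List ℕ | σ.length ≤ i ∧ Bdd (g i) σ}
    have hP : P.Finite := finite_bdd i (g i)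
    let Q : Set (List ℕ) := ⋃ σ ∈ P, {ρ | σ.length = i ∧ ρ <:+ τ σ ∧ i < ρ.length}
    have hQ : Q.Finite := by
      refine Set.Finite.biUnion hP fun σ _ => ?_
      refine ((τ σ).tails.toFinset.finite_toSet).subset ?_
      rintro ρ ⟨-, hρ, -⟩
      simp [hρ]
    refine ⟨⋂ ρ ∈ Q, T ρ, ⟨?_, N, hN3, ?_⟩, ?_⟩
    · refine Set.Finite.isOpen_biInter hQ ?_
      intro ρ hρ
      simp only [Q, mem_iUnion] at hρ
      obtain ⟨σ, -, -, -, hlen⟩ := hρ
      exact hTo ρ (by rintro rfl; simp at hlen)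
    · intro σ hσ1 hσ2
      obtain ⟨h1, h2, h3, h4⟩ := hτ σ hσ1 hσ2
      refine ⟨τ σ, h1, h2, h3, fun ρ hρ hlen => ?_⟩
      refine iInter₂_subset ρ ?_
      simp only [Q, mem_iUnion]
      exact ⟨σ, ⟨hσ1.le, hσ2⟩, hσ1, hρ, hσ1 ▸ hlen⟩
    · refine subset_iInter₂ fun ρ hρ => ?_
      simp only [Q, mem_iUnion] at hρ
      obtain ⟨σ, hσP, hσ1, hρτ, hlen⟩ := hρ
      obtain ⟨h1, h2, h3, h4⟩ := hτ σ hσ1 hσP.2
      exact h4 ρ hρτ (hσ1 ▸ hlen)
  obtain ⟨V, hV, hVγ⟩ := hS 𝒱 h𝒱
  choose N hN hV2 using fun i => (hV i).2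
  choose τ hτ1 hτ2 hτ3 using hV2
  -- the sequence of positions
  let St : Type := {σ : List ℕ // Bdd (g σ.length) σ}
  let step : St → St := fun σ =>
    ⟨τ σ.1.length σ.1 rfl σ.2, by rw [hτ1]; exact hτ2 _ _ _ _⟩
  let s : ℕ → St := fun n => step^[n] ⟨[], by intro k hk; simp at hk⟩
  have hs0 : (s 0).1 = [] := rfl
  have hs1 : ∀ n, s (n + 1) = step (s n) := fun n => Function.iterate_succ_apply' _ _ _
  have hlen : ∀ n, (s (n + 1)).1.length = N (s n).1.length := by
    intro n; rw [hs1]; exact hτ1 _ _ _ _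
  have hlt : ∀ n, (s n).1.length < (s (n + 1)).1.length := by
    intro n; rw [hlen]; exact hN _
  have hreach : ∀ n, Reach T (V (s n).1.length) (s n).1 (s (n + 1)).1 := by
    intro n; rw [hs1]; exact hτ3 _ _ _ _
  have hmono : StrictMono fun n => (s n).1.length := strictMono_nat_of_lt_succ hlt
  have hge : ∀ n, n ≤ (s n).1.length := fun n => hmono.id_le n
  have hsuf : ∀ m n, m ≤ n → (s m).1 <:+ (s n).1 := by
    intro m n hmn
    induction n, hmn using Nat.le_induction with
    | base => exact List.suffix_refl _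
    | succ n _ ih => exact ih.trans (hreach n).1
  -- the branch: suffixes of the positions
  let p : ℕ → List ℕ := fun n => (s n).1.drop ((s n).1.length - n)
  have hplen : ∀ n, (p n).length = n := by
    intro n
    simp only [p, List.length_drop]
    have := hge n
    omega
  have hpsuf : ∀ n, p n <:+ (s n).1 := fun n => List.drop_suffix _ _
  have hpsuf' : ∀ m n, m ≤ (s n).1.length → p m <:+ (s n).1 := by
    intro m n hm
    rcases le_total m n with h | h
    · exact (hpsuf m).trans (hsuf m n h)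
    · exact List.suffix_of_suffix_length_le (hpsuf m) (hsuf n m h) (by rw [hplen]; exact hm)
  refine ⟨p, ?_, ?_, ?_⟩
  · exact List.length_eq_zero_iff.1 (hplen 0)
  · intro n
    have h1 : p n <:+ p (n + 1) :=
      List.suffix_of_suffix_length_le (hpsuf' n (n + 1) (by have := hge (n + 1); omega))
        (hpsuf (n + 1)) (by rw [hplen, hplen]; omega)
    obtain ⟨t, ht⟩ := h1
    have htl : t.length = 1 := by
      have := congrArg List.length ht
      rw [List.length_append, hplen, hplen] at this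
      omega
    obtain ⟨k, rfl⟩ := List.length_eq_one_iff.1 htl
    exact ⟨k, by rw [← ht]; rfl⟩
  · intro x
    obtain ⟨i₀, hi₀⟩ := eventually_atTop.1 (hVγ x)
    filter_upwards [eventually_ge_atTop ((s i₀).1.length)] with n hn
    -- find the block containing `n + 1`
    have hex : ∃ k, n + 1 ≤ (s k).1.length := ⟨n + 1, hge _⟩
    let k := Nat.find hex
    have hk : n + 1 ≤ (s k).1.length := Nat.find_spec hex
    have hk0 : i₀ < k := by
      by_contra hcon
      have : (s k).1.length ≤ (s i₀).1.length := hmono.monotone (not_lt.1 hcon)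
      omega
    obtain ⟨j, hj⟩ : ∃ j, k = j + 1 := ⟨k - 1, by omega⟩
    have hjlt : (s j).1.length < n + 1 := by
      have := Nat.find_min hex (m := j) (by omega)
      omega
    have hxV : x ∈ V (s j).1.length := by
      apply hi₀
      have := hge j
      omega
    have hr := hreach j
    rw [hj] at hk
    exact hr.2 (p (n + 1)) (hpsuf' (n + 1) (j + 1) hk) (by rw [hplen]; exact hjlt) hxV

end Aux

/-- If the selection principle holds on an infinite space then TWO can beat every strategy of ONE. -/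
theorem infinite_case {X : Type*} [TopologicalSpace X] [Infinite X] (hS : StrongGammaSelection X) :
    ¬ OneHasWinningStrategy X := by
  classical
  rintro ⟨Φ, hΦ, hwin⟩
  have hW := wideSelection_of_strongGammaSelection hS
  -- enumerations of countable subcovers
  have henum : ∀ (n : ℕ) (𝒰 : Set (Set X)), ∃ V : ℕ → Set X, Wide n 𝒰 →
      (∀ k, V k ∈ 𝒰) ∧ ∀ F : Finset X, F.card ≤ n → ∃ k, (F : Set X) ⊆ V k := by
    intro n 𝒰
    by_cases h : Wide n 𝒰
    · obtain ⟨V, hV⟩ := exists_countable_wide hW h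
      exact ⟨V, fun _ => hV⟩
    · exact ⟨fun _ => ∅, fun h' => absurd h' h⟩
  choose e he using henum
  -- histories attached to positions (read from right to left)
  let hist : List ℕ → List (Set X) := fun σ =>
    List.rec (motive := fun _ => List (Set X)) [] (fun k σ' h => h ++ [e (σ'.length + 1) (Φ h) k]) σ
  have hist_nil : hist [] = [] := rfl
  have hist_cons : ∀ k σ, hist (k :: σ) = hist σ ++ [e (σ.length + 1) (Φ (hist σ)) k] :=
    fun k σ => rfl
  have hist_len : ∀ σ, (hist σ).length = σ.length := by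
    intro σ
    induction σ with
    | nil => rfl
    | cons k σ ih => rw [hist_cons]; simp [ih]
  -- every position is legal
  have key : ∀ σ : List ℕ, ∃ U : ℕ → Set X, history U σ.length = hist σ ∧
      ∀ m < σ.length, U m ∈ Φ (history U m) := by
    intro σ
    induction σ with
    | nil => exact ⟨fun _ => ∅, rfl, fun m hm => absurd hm (by simp)⟩
    | cons k σ ih =>
      obtain ⟨U, hU1, hU2⟩ := ih
      have hcov : Wide (σ.length + 1) (Φ (hist σ)) := by
        rw [← hU1]; exact (hΦ σ.length U hU2).wide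
      let a : Set X := e (σ.length + 1) (Φ (hist σ)) k
      let U' : ℕ → Set X := fun m => if m < σ.length then U m else a
      have hagree : ∀ m ≤ σ.length, history U' m = history U m := by
        intro m hm
        simp only [history]
        refine List.map_congr_left fun i hi => ?_
        have : i < m := List.mem_range.1 hi
        simp only [U', if_pos (lt_of_lt_of_le this hm)]
      refine ⟨U', ?_, ?_⟩
      · have h1 : history U' (σ.length + 1) = history U' σ.length ++ [U' σ.length] := by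
          simp [history, List.range_succ]
        rw [List.length_cons, h1, hagree _ le_rfl, hU1, hist_cons]
        simp [U', a]
      · intro m hm
        rw [List.length_cons] at hm
        rw [hagree m (by omega)]
        rcases Nat.lt_or_ge m σ.length with h | h
        · simp only [U', if_pos h]; exact hU2 m h
        · have hm' : m = σ.length := by omega
          subst hm'
          simp only [U', lt_irrefl, if_false]
          rw [hU1]
          exact (he _ _ hcov).1 k
  have hcov : ∀ σ : List ℕ, Wide (σ.length + 1) (Φ (hist σ)) := by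
    intro σ
    obtain ⟨U, hU1, hU2⟩ := key σ
    rw [← hU1]
    exact (hΦ σ.length U hU2).wide
  let T : List ℕ → Set X := fun σ =>
    List.rec (motive := fun _ => Set X) ∅ (fun k σ' _ => e (σ'.length + 1) (Φ (hist σ')) k) σ
  have T_cons : ∀ k σ, T (k :: σ) = e (σ.length + 1) (Φ (hist σ)) k := fun k σ => rfl
  obtain ⟨p, hp0, hp1, hpγ⟩ := exists_branch hW (T := T)
    (by
      intro σ hσ
      cases σ with
      | nil => exact absurd rfl hσ
      | cons k σ =>
        rw [T_cons]
        exact (hcov σ).1 _ ((he _ _ (hcov σ)).1 k))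
    (by
      intro σ F hF
      obtain ⟨k, hk⟩ := (he _ _ (hcov σ)).2 F hF
      exact ⟨k, hk⟩)
  have hplen : ∀ n, (p n).length = n := by
    intro n
    induction n with
    | zero => rw [hp0]; rfl
    | succ n ih =>
      obtain ⟨k, hk⟩ := hp1 n
      rw [hk, List.length_cons, ih]
  have hhist : ∀ n, hist (p n) = history (fun n => T (p (n + 1))) n := by
    intro n
    induction n with
    | zero => rw [hp0]; rfl
    | succ n ih =>
      have h1 : history (fun n => T (p (n + 1))) (n + 1)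
          = history (fun n => T (p (n + 1))) n ++ [T (p (n + 1))] := by
        simp [history, List.range_succ]
      obtain ⟨k, hk⟩ := hp1 n
      rw [h1, ← ih, hk, hist_cons, T_cons]
  have hlegal : ∀ n, T (p (n + 1)) ∈ Φ (history (fun n => T (p (n + 1))) n) := by
    intro n
    rw [← hhist]
    obtain ⟨k, hk⟩ := hp1 n
    rw [hk, T_cons]
    exact (he _ _ (hcov (p n))).1 k
  refine hwin (fun n => T (p (n + 1))) hlegal ⟨fun n => ?_, hpγ⟩
  exact (hcov (p n)).1 _ (by rw [hhist]; exact hlegal n)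

/-- On a finite space the selection principle can hold only if ONE has no strategy at all. -/
theorem finite_case {X : Type*} [TopologicalSpace X] [Finite X] (hS : StrongGammaSelection X) :
    ¬ OneHasWinningStrategy X := by
  classical
  rintro ⟨Φ, hΦ, -⟩
  have : Fintype X := Fintype.ofFinite X
  rcases isEmpty_or_nonempty X with hX | hX
  · -- on the empty space the empty family is a cover from which nothing can be selected
    obtain ⟨U, hU, -⟩ := hS (fun _ => ∅) (fun n => ⟨by simp, by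
      refine eq_univ_of_forall fun x => (hX.false x).elim, by simp, fun F hF => by
      exfalso
      have : F = ∅ := Finset.eq_empty_of_isEmpty F
      simp [this] at hF⟩)
    exact hU 0
  · obtain ⟨x₀⟩ := hX
    -- a play of TWO against `Φ`
    let pick : Set (Set X) → Set X := fun 𝒰 => if h : 𝒰.Nonempty then h.some else ∅
    have hpick : ∀ 𝒰 : Set (Set X), 𝒰.Nonempty → pick 𝒰 ∈ 𝒰 := by
      intro 𝒰 h
      simp only [pick, dif_pos h]
      exact h.some_mem
    have hexU : ∃ U : ℕ → Set X, ∀ n, U n = pick (Φ (history U n)) := by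
      let L : ℕ → List (Set X) := fun n =>
        Nat.rec (motive := fun _ => List (Set X)) [] (fun _ l => l ++ [pick (Φ l)]) n
      have hL : ∀ n, L (n + 1) = L n ++ [pick (Φ (L n))] := fun n => rfl
      have hist : ∀ n, history (fun n => pick (Φ (L n))) n = L n := by
        intro n
        induction n with
        | zero => rfl
        | succ n ih =>
          rw [hL, ← ih]
          simp [history, List.range_succ]
          rw [← ih]
          rfl
      refine ⟨fun n => pick (Φ (L n)), fun n => ?_⟩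
      rw [hist]
    obtain ⟨U, hU⟩ := hexU
    have hlegal : ∀ n, IsNCover X (n + 1) (Φ (history U n)) ∧ U n ∈ Φ (history U n) := by
      intro n
      induction n using Nat.strong_induction_on with
      | _ n ih =>
        have hc := hΦ n U (fun m hm => (ih m hm).2)
        refine ⟨hc, ?_⟩
        rw [hU]
        have : x₀ ∈ ⋃₀ Φ (history U n) := by rw [hc.2.1]; trivial
        obtain ⟨W, hW, -⟩ := this
        exact hpick _ ⟨W, hW⟩
    -- the cover of index `card X` is also an `n`-cover for all larger `n`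
    let M : ℕ := Fintype.card X
    let 𝒰 : ℕ → Set (Set X) := fun n => Φ (history U (min n M))
    obtain ⟨V, hV, hVγ⟩ := hS 𝒰 (by
      intro n
      rcases le_total n M with h | h
      · simp only [𝒰, min_eq_left h]; exact (hlegal n).1
      · simp only [𝒰, min_eq_right h]
        obtain ⟨h1, h2, h3, -⟩ := (hlegal M).1
        refine ⟨h1, h2, h3, fun F hF => ?_⟩
        have := Finset.card_le_univ F
        simp only [M] at h
        omega)
    have : ∀ᶠ n in atTop, ∀ x : X, x ∈ V n := by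
      rw [Filter.eventually_all]
      exact hVγ.2
    obtain ⟨n, hn⟩ := this.exists
    have hVn : V n = univ := eq_univ_of_forall hn
    have h3 := (hlegal (min n M)).1.2.2.1
    exact h3 (by rw [← hVn]; exact hV n)

/-- **Main theorem.** For every topological space `X`, `X` satisfies `S₁(⟨𝒪_n⟩_n, Γ)` (that is, `X` is a
strong `γ`-set) if and only if ONE has no winning strategy in the game `G₁(⟨𝒪_n⟩_n, Γ)` on `X`. -/
theorem result (X : Type*) [TopologicalSpace X] :
    StrongGammaSelection X ↔ ¬ OneHasWinningStrategy X := by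
  constructor
  · intro hS
    rcases finite_or_infinite X with h | h
    · exact finite_case hS
    · exact infinite_case hS
  · intro h 𝒰 h𝒰
    by_contra hcon
    push Not at hcon
    refine h ⟨fun l => 𝒰 l.length, ?_, ?_⟩
    · intro n U _
      simp only [history, List.length_map, List.length_range]
      exact h𝒰 n
    · intro U hU
      refine hcon U fun n => ?_
      have := hU n
      simpa only [history, List.length_map, List.length_range] using this

end Pool.Agent.Results.MP_b9e574_gt.StrongGammaGame
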